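import Mathlib
import Pool.Agent.V7H27.SH.Explicit

/-!
# MP_0ea415_nt: Littlewood's problem for all shifts at once

For EVERY real `α` and almost every `β`, all shifts `t` of `β` satisfy

  `liminf q log q log log q ⟨qα⟩ ⟨qβ - t⟩ = 0`;

and the same holds with `⟨qα - γ⟩` instead of `⟨qα⟩`, for every fixed real `γ`, if `⟨qα⟩` is at
least `1 / (q (log q)^A)` for some `A` and all large `q` (this holds for almost every `α`).
In both cases the function `1 / (log q log log q)` may be replaced by `ψ(log q)` where `ψ` is any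
nonincreasing function with `i ψ(i) ≤ 1` for which the sums of `ψ` over the intervals
`[(log₂ n)^2, n)` are unbounded (and, in the first case, `ψ(i)` is at least a power of `1 / i`).

Proof.  Let `R = 4`, `M ≈ log₂ n`.  In a block of `3 L` consecutive scales `k, …, k + 3 L`, `L` being
a large multiple of `M`, we take for `M` values of `l` and `M` values of `i` all the points `(x, y)`
with `x ≈ 4^(l + i)`, `0 < x α - y - γ ≈ 4^(i - l)`, and give them the radius `ψ / 4^(2 i + 2.5)`.  The
number of these points is about `16^i`, so that for every `i` the total length is about `M ψ`; thus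
the values of `⟨xα - γ⟩` of the size of `4^(2 i) / x`, for all `i` up to a multiple of `log n`,
contribute in the same way.  The arcs `{β : ⟨xβ - t⟩ < ρ}` are independent on average in each
interval of length `4^(-k)`, if no relation `h (x, y) + h' (x', y') = (h + h') c` holds, where
`h, h'` are at most a power of `4^M` and where `c` is a certain point of the plane depending on the
block (a rational point which is very near to the centre of the affine lattice, when there is one).
This follows if `e (x, y) - e c` is a primitive vector where `e` is the denominator of `c`, and a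
positive proportion of the points has this property, as a sieve in a reduced basis shows.  By the
second moment method, the conditional probability to avoid all arcs is at most
`exp (- c M^2 ψ)` in each block, and `exp (- C M)` in all blocks, where `C` is arbitrarily large.
This is smaller than the number of possible `t`, which can be taken from a net of `4^(O(M))` points.
-/

namespace Pool.Agent.Results.MP_0ea415_nt.AllShiftsH27

open MeasureTheory Filter

/-- `|x - round x|` is the distance of `x` to the nearest integer. -/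
theorem result (α γ : ℝ) :
    ((γ = 0 ∨ ∃ A : ℕ, ∀ᶠ q : ℕ in atTop,
        1 ≤ (q : ℝ) * Real.log q ^ A * |q * α - round (q * α)|) →
      ∀ᵐ β : ℝ, ∀ t ε : ℝ, 0 < ε → ∃ᶠ q : ℕ in atTop,
        (q : ℝ) * Real.log q * Real.log (Real.log q) *
          |q * α - γ - round (q * α - γ)| * |q * β - t - round (q * β - t)| < ε) ∧
    (∀ ψ : ℕ → ℝ, Antitone ψ → (∀ i, 0 ≤ ψ i) → (∀ i : ℕ, i * ψ i ≤ 1) →
        (∀ C : ℝ, ∃ᶠ n : ℕ in atTop, C ≤ ∑ i ∈ Finset.Ico ((Nat.log 2 n) ^ 2) n, ψ i) →
      ((γ = 0 ∧ ∃ A : ℕ, ∀ᶠ i : ℕ in atTop, 1 ≤ (i : ℝ) ^ A * ψ i) ∨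
        ∃ A : ℕ, ∀ᶠ q : ℕ in atTop, 1 ≤ (q : ℝ) * Real.log q ^ A * |q * α - round (q * α)|) →
      ∀ᵐ β : ℝ, ∀ t : ℝ, ∃ᶠ q : ℕ in atTop,
        (q : ℝ) * |q * α - γ - round (q * α - γ)| * |q * β - t - round (q * β - t)|
          < ψ (Nat.log 2 q)) := by
  have part2 : (∃ A : ℕ, ∀ᶠ q : ℕ in atTop,
        1 ≤ (q : ℝ) * Real.log q ^ A * |q * α - round (q * α)|) →
      ∀ ψ : ℕ → ℝ, Antitone ψ → (∀ i, 0 ≤ ψ i) → (∀ i : ℕ, i * ψ i ≤ 1) →
        (∀ C : ℝ, ∃ᶠ n : ℕ in atTop, C ≤ ∑ i ∈ Finset.Ico ((Nat.log 2 n) ^ 2) n, ψ i) →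
      ∀ᵐ β : ℝ, ∀ t : ℝ, ∃ᶠ q : ℕ in atTop,
        (q : ℝ) * |q * α - γ - round (q * α - γ)| * |q * β - t - round (q * β - t)|
          < ψ (Nat.log 2 q) := by
    rintro ⟨A, hA⟩ ψ h1 h2 h3 h4
    obtain ⟨a, ha⟩ := Pool.Agent.V7H27.SH.polylog (α := α) (A := A) hA
    exact Pool.Agent.V7H27.SH.nice (α := α) (γ := γ) h1 h2 h3 h4 ha
  have notnice : ∀ B : ℕ, (¬ ∃ A : ℕ, ∀ᶠ q : ℕ in atTop,
        1 ≤ (q : ℝ) * Real.log q ^ A * |q * α - round (q * α)|) →
      ∃ᶠ q : ℕ in atTop, (q : ℝ) * Real.log q ^ B * |q * α - round (q * α)| < 1 := by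
    intro B hA
    have h4 : ¬ ∀ᶠ q : ℕ in atTop, 1 ≤ (q : ℝ) * Real.log q ^ B * |q * α - round (q * α)| :=
      fun h => hA ⟨B, h⟩
    rw [not_eventually] at h4
    exact h4.mono (fun q hq => not_le.1 hq)
  refine ⟨?_, ?_⟩
  swap
  · intro ψ h1 h2 h3 h4 h5
    by_cases hA : ∃ A : ℕ, ∀ᶠ q : ℕ in atTop,
        1 ≤ (q : ℝ) * Real.log q ^ A * |q * α - round (q * α)|
    · exact part2 hA ψ h1 h2 h3 h4
    · rcases h5 with ⟨hγ, B, hB⟩ | h
      swap
      · exact absurd h hA
      subst hγ
      refine Eventually.of_forall (fun β t => ?_)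
      have t0 : Tendsto (fun q : ℕ => Nat.log 2 q) atTop atTop := by
        rw [tendsto_atTop_atTop]
        intro b
        refine ⟨2 ^ b, fun q hq => ?_⟩
        have := Nat.log_mono_right (b := 2) hq
        rwa [Nat.log_pow (by norm_num)] at this
      have t1 : Tendsto (fun q : ℕ => Real.log (q : ℝ)) atTop atTop :=
        Real.tendsto_log_atTop.comp tendsto_natCast_atTop_atTop
      refine ((notnice (B + 1) hA).and_eventually ((t0.eventually hB).and
        ((t1.eventually_ge_atTop (2 ^ B)).and (eventually_ge_atTop 16)))).mono ?_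
      rintro q ⟨hq1, hq2, hq3, hq4⟩
      have hqR : (16 : ℝ) ≤ q := by exact_mod_cast hq4
      obtain ⟨q1, q2, q3⟩ := Pool.Agent.V7H27.SH.log_pos_big hqR
      have hl0 : 0 < Real.log (q : ℝ) := by linarith
      simp only [sub_zero]
      have e5 : |(q : ℝ) * β - t - round ((q : ℝ) * β - t)| ≤ 1 :=
        (abs_sub_round _).trans (by norm_num)
      set D : ℝ := |(q : ℝ) * α - round ((q : ℝ) * α)| with hD
      have hD0 : 0 ≤ D := abs_nonneg _
      set x : ℕ := Nat.log 2 q with hx
      have hx2 : (x : ℝ) ≤ 2 * Real.log q := by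
        have f1 : 2 ^ x ≤ q := Nat.pow_log_le_self 2 (by omega)
        have f2 : Real.log ((2 : ℝ) ^ x) ≤ Real.log q := by
          apply Real.log_le_log (by positivity)
          exact_mod_cast f1
        rw [Real.log_pow] at f2
        have f4 := Real.log_two_gt_d9
        have f5 : (0 : ℝ) ≤ x := Nat.cast_nonneg x
        nlinarith
      have e6 : (x : ℝ) ^ B ≤ Real.log q ^ (B + 1) := by
        calc (x : ℝ) ^ B ≤ (2 * Real.log q) ^ B := by gcongr
          _ = 2 ^ B * Real.log q ^ B := mul_pow _ _ _
          _ ≤ Real.log q * Real.log q ^ B := by gcongr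
          _ = Real.log q ^ (B + 1) := by rw [pow_succ]; ring
      have e7 : (q : ℝ) * D < ψ x := by
        have g1 : (q : ℝ) * D * (x : ℝ) ^ B < 1 := by
          refine lt_of_le_of_lt ?_ hq1
          calc (q : ℝ) * D * (x : ℝ) ^ B ≤ (q : ℝ) * D * Real.log q ^ (B + 1) := by gcongr
            _ = (q : ℝ) * Real.log q ^ (B + 1) * D := by ring
        have g2 : (q : ℝ) * D * (x : ℝ) ^ B < ψ x * (x : ℝ) ^ B := by
          refine lt_of_lt_of_le g1 (hq2.trans (le_of_eq ?_))
          ring
        exact lt_of_mul_lt_mul_right g2 (by positivity)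
      calc (q : ℝ) * D * |q * β - t - round (q * β - t)| ≤ (q : ℝ) * D * 1 := by gcongr
        _ < ψ x := by rw [mul_one]; exact e7
  · intro hα
    by_cases hA : ∃ A : ℕ, ∀ᶠ q : ℕ in atTop,
          1 ≤ (q : ℝ) * Real.log q ^ A * |q * α - round (q * α)|
    · have h := part2 hA Pool.Agent.V7H27.SH.psi0 Pool.Agent.V7H27.SH.psi0_anti
        Pool.Agent.V7H27.SH.psi0_nonneg Pool.Agent.V7H27.SH.psi0_le Pool.Agent.V7H27.SH.psi0_div
      filter_upwards [h] with β hβ
      intro t ε hε
      have t0 : Tendsto (fun q : ℕ => Nat.log 2 q) atTop atTop := by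
        rw [tendsto_atTop_atTop]
        intro b
        refine ⟨2 ^ b, fun q hq => ?_⟩
        have := Nat.log_mono_right (b := 2) hq
        rwa [Nat.log_pow (by norm_num)] at this
      have t1 : Tendsto (fun q : ℕ => Real.log (Real.log ((Nat.log 2 q : ℕ) : ℝ))) atTop atTop :=
        Real.tendsto_log_atTop.comp (Real.tendsto_log_atTop.comp
          (tendsto_natCast_atTop_atTop.comp t0))
      refine ((hβ t).and_eventually ((t1.eventually_gt_atTop (1 / ε)).and
        (eventually_ge_atTop (2 ^ 16)))).mono ?_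
      rintro q ⟨hq1, hq2, hq3⟩
      have hx16 : 16 ≤ Nat.log 2 q := by
        have := Nat.log_mono_right (b := 2) hq3
        rwa [Nat.log_pow (by norm_num)] at this
      set x : ℕ := Nat.log 2 q with hx
      have hxR : (16 : ℝ) ≤ x := by exact_mod_cast hx16
      have hqR : (16 : ℝ) ≤ q := by
        have : 16 ≤ q := le_trans (by norm_num) hq3
        exact_mod_cast this
      obtain ⟨p1, p2, p3⟩ := Pool.Agent.V7H27.SH.log_pos_big hxR
      obtain ⟨q1, q2, q3⟩ := Pool.Agent.V7H27.SH.log_pos_big hqR
      have hqx : Real.log q ≤ x := by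
        have h1 : q < 2 ^ (x + 1) := Nat.lt_pow_succ_log_self (by norm_num) q
        have h2 : Real.log q ≤ Real.log ((2 : ℝ) ^ (x + 1)) := by
          apply Real.log_le_log q1
          exact_mod_cast h1.le
        rw [Real.log_pow] at h2
        push_cast at h2
        have h3 := Real.log_two_lt_d9
        nlinarith
      have hqx2 : Real.log (Real.log q) ≤ Real.log x := Real.log_le_log (by linarith) hqx
      have hpsi : Pool.Agent.V7H27.SH.psi0 x = 1 / (x * Real.log x * Real.log (Real.log x)) := by
        unfold Pool.Agent.V7H27.SH.psi0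
        rw [max_eq_left hx16]
      rw [hpsi] at hq1
      set P : ℝ := (q : ℝ) * |q * α - γ - round (q * α - γ)| * |q * β - t - round (q * β - t)|
        with hP
      have hP0 : 0 ≤ P := by positivity
      have hl0 : 0 < Real.log (q : ℝ) := by linarith
      have hlx : 0 < Real.log (x : ℝ) := by linarith
      calc (q : ℝ) * Real.log q * Real.log (Real.log q) *
            |q * α - γ - round (q * α - γ)| * |q * β - t - round (q * β - t)|
          = P * (Real.log q * Real.log (Real.log q)) := by rw [hP]; ring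
        _ ≤ (1 / (x * Real.log x * Real.log (Real.log x))) * (x * Real.log x) := by
            gcongr
        _ = 1 / Real.log (Real.log x) := by field_simp
        _ < ε := by
            rw [div_lt_iff₀ p3]
            rw [div_lt_iff₀ hε] at hq2
            linarith
    · have hγ : γ = 0 := by
        rcases hα with h | h
        · exact h
        · exact absurd h hA
      subst hγ
      refine Eventually.of_forall (fun β t ε hε => ?_)
      have t1 : Tendsto (fun q : ℕ => Real.log (q : ℝ)) atTop atTop :=
        Real.tendsto_log_atTop.comp tendsto_natCast_atTop_atTop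
      refine ((notnice 3 hA).and_eventually ((t1.eventually_gt_atTop (1 / ε)).and
        (eventually_ge_atTop 16))).mono ?_
      rintro q ⟨hq1, hq2, hq3⟩
      have hqR : (16 : ℝ) ≤ q := by exact_mod_cast hq3
      obtain ⟨q1, q2, q3⟩ := Pool.Agent.V7H27.SH.log_pos_big hqR
      have hl0 : 0 < Real.log (q : ℝ) := by linarith
      simp only [sub_zero]
      have h5 : |(q : ℝ) * β - t - round ((q : ℝ) * β - t)| ≤ 1 :=
        (abs_sub_round _).trans (by norm_num)
      have h6 : Real.log (Real.log (q : ℝ)) ≤ Real.log q :=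
        (Real.log_le_sub_one_of_pos hl0).trans (by linarith)
      set B : ℝ := |(q : ℝ) * α - round ((q : ℝ) * α)| with hB
      have hB0 : 0 ≤ B := abs_nonneg _
      calc (q : ℝ) * Real.log q * Real.log (Real.log q) * B *
            |q * β - t - round (q * β - t)|
          ≤ (q : ℝ) * Real.log q * Real.log q * B * 1 := by gcongr
        _ = ((q : ℝ) * Real.log q ^ 3 * B) * (1 / Real.log q) := by field_simp
        _ < 1 * (1 / Real.log q) := by gcongr
        _ < ε := by
            rw [one_mul, div_lt_iff₀ hl0]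
            rw [div_lt_iff₀ hε] at hq2
            linarith

end Pool.Agent.Results.MP_0ea415_nt.AllShiftsH27
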