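import Mathlib
import Pool.Agent.V7H37.LI.Path

/-! # MP_0ea415_nt: near returns of the orbit of a counterexample occur on bounded islands only

Let `(α, β)` be a counterexample to Littlewood's conjecture: `q ⟨qα⟩ ⟨qβ⟩` is bounded away from zero for
large `q`. For `x, y ≥ 1` let `h = point α β x y` be the matrix of the linear forms `q / (x y)`,
`x (α q - p)`, `y (β q - r)`. For an integral matrix `γ` let `X h γ = h γ h⁻¹`, the matrix of `γ` with
respect to these forms. It is near-diagonal with size `B` and precision `η` at the position `(x, y)` if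
the diagonal entries of `X h γ` are at most `B`, the other ones at most `η` in absolute value.

There is a `C` with the following property for all `B ≥ 2`.

1. The positions `(x, y)` at which there is an integral matrix `γ`, not a multiple of the identity,
   which is near-diagonal with size `B` and precision `B ^ (-C)` form bounded islands: there is an `M`
   such that each chain of positions `(x k, y k)` with `x k, y k ≥ M`, in which neighbours differ by
   factors at most `B`, and whose ends differ by a factor larger than `M` in one of the coordinates,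
   contains a position without such matrices. There is no condition on the form of the chain; for
   instance `x` or `y` can be constant.
2. In other words, with `ε = B ^ (-C)`: on each long chain there is a point `h` which returns to its
   `ε`-neighbourhood in `GL_3(ℝ) / GL_3(ℤ)` under no diagonal matrix `b` of the domain `b i ≥ 2 / B`,
   apart from the bounded part where all `b i < 2`. So the first return under the whole diagonal group
   (of rank two) takes a time at least `c log (1 / ε)`.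

Let `ρ, σ > 1`. For a counterexample there are bases `V (m, n) ∈ GL_3(ℤ)`, `m, n ≥ 0`, whose columns
`(q, p, r)` satisfy `|q| ≤ C ρ ^ m σ ^ n`, `|α q - p| ≤ C / ρ ^ m`, `|β q - r| ≤ C / σ ^ n`. The code of
such a family gives at `(m, n)` the pair `V(m, n)⁻¹ V(m+1, n)`, `V(m, n)⁻¹ V(m, n+1)`; it is a
two-dimensional array of finitely many symbols.

3. There is a `κ`, depending on `(α, β)`, `ρ`, `σ` and `C` only, such that for each `L` all sufficiently
   long paths with steps at most `L` in the code, far enough from the axes, contain a position `z`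
   such that for no vector `w ≠ 0` with coordinates at most `L` in absolute value the code has the
   period `w` in the square of radius `κ L` around `z`. So on all long paths there are positions
   where the code has no short local periods with a large exponent.

The start result QuadraticComplexity finds such positions in all large squares; here they are on all
long paths. The proof: near-diagonal integral matrices at neighbouring positions commute. If they exist
at all positions of a chain, and are not scalar, they lie in one cubic field, and the first one of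
them has bounded entries with respect to the forms of all positions of the chain. Between the ends
of the chain one of the three weights grows or shrinks by a large factor compared to both others. So
in a limit one of the three linear forms is an eigenvector of an integral matrix with irreducible
characteristic polynomial, and its coefficients are proportional to elements of a cubic field. But
this is impossible for the limits of a counterexample, by a theorem of the library. -/

set_option autoImplicit false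

namespace Pool.Agent.Results.MP_0ea415_nt.IslandsH37

/-- `q ⟨qα⟩ ⟨qβ⟩` -/
noncomputable def littlewood (α β : ℝ) (q : ℕ) : ℝ :=
  (q : ℝ) * |(q : ℝ) * α - (round ((q : ℝ) * α) : ℝ)|
    * |(q : ℝ) * β - (round ((q : ℝ) * β) : ℝ)|

/-- the matrix of the linear forms `q / (x y)`, `x (α q - p)`, `y (β q - r)` -/
noncomputable def point (α β x y : ℝ) : Matrix (Fin 3) (Fin 3) ℝ :=
  Matrix.diagonal ![(x * y)⁻¹, x, y] * !![1, 0, 0; α, -1, 0; β, 0, -1]

/-- the matrix of `γ` with respect to the linear forms given by the rows of `h` -/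
noncomputable def X (h : Matrix (Fin 3) (Fin 3) ℝ) (γ : Matrix (Fin 3) (Fin 3) ℤ) :
    Matrix (Fin 3) (Fin 3) ℝ := h * γ.map (Int.cast : ℤ → ℝ) * h⁻¹

/-- the diagonal entries of `X h γ` are at most `B`, the other entries at most `η` in absolute
value -/
def NearDiagonal (B η : ℝ) (h : Matrix (Fin 3) (Fin 3) ℝ) (γ : Matrix (Fin 3) (Fin 3) ℤ) : Prop :=
  ∀ i j, |X h γ i j| ≤ if i = j then B else η

/-- `V m n` has determinant `±1`, and its columns `(q, p, r)` satisfy `|q| ≤ C ρ ^ m σ ^ n`,
`|α q - p| ≤ C / ρ ^ m`, `|β q - r| ≤ C / σ ^ n`, for `m, n ≥ 0`. -/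
def Good (α β ρ σ C : ℝ) (V : ℤ → ℤ → Matrix (Fin 3) (Fin 3) ℤ) : Prop :=
  ∀ m n : ℤ, 0 ≤ m → 0 ≤ n → |(V m n).det| = 1 ∧ ∀ k, |(V m n 0 k : ℝ)| ≤ C * (ρ ^ m * σ ^ n) ∧
    ρ ^ m * |α * V m n 0 k - V m n 1 k| ≤ C ∧ σ ^ n * |β * V m n 0 k - V m n 2 k| ≤ C

/-- the code -/
noncomputable def code (V : ℤ → ℤ → Matrix (Fin 3) (Fin 3) ℤ) (m n : ℤ) :
    Matrix (Fin 3) (Fin 3) ℤ × Matrix (Fin 3) (Fin 3) ℤ :=
  ((V m n)⁻¹ * V (m + 1) n, (V m n)⁻¹ * V m (n + 1))

/-- the code has the period `(s, t)` in the square of radius `K` around `(m, n)` -/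
def LocalPeriod (V : ℤ → ℤ → Matrix (Fin 3) (Fin 3) ℤ) (m n s t K : ℤ) : Prop :=
  ∀ x y : ℤ, |x| ≤ K → |y| ≤ K → code V (m + x) (n + y) = code V (m + x + s) (n + y + t)

theorem result (α β : ℝ)
    (h : ∃ ε : ℝ, 0 < ε ∧ ∃ N : ℕ, ∀ q : ℕ, N ≤ q → 0 < q → ε ≤ littlewood α β q) :
    (∃ C : ℕ, ∀ B : ℝ, 2 ≤ B → ∃ M : ℝ, 1 ≤ M ∧ ∀ (n : ℕ) (x y : ℕ → ℝ),
      (∀ k ≤ n, M ≤ x k ∧ M ≤ y k) →
      (∀ k < n, x (k + 1) ≤ B * x k ∧ x k ≤ B * x (k + 1) ∧
        y (k + 1) ≤ B * y k ∧ y k ≤ B * y (k + 1)) →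
      (M * x 0 < x n ∨ M * x n < x 0 ∨ M * y 0 < y n ∨ M * y n < y 0) →
      ∃ k ≤ n,
        -- 1. no near-diagonal integral matrices
        (∀ γ : Matrix (Fin 3) (Fin 3) ℤ, (∀ c : ℤ, γ ≠ c • (1 : Matrix (Fin 3) (Fin 3) ℤ)) →
          ¬ NearDiagonal B (1 / B ^ C) (point α β (x k) (y k)) γ) ∧
        -- 2. no near returns under the diagonal group
        ∀ b : Fin 3 → ℝ, (∀ i, 0 < b i) → (∃ i, 2 ≤ b i) → (∀ i, 2 ≤ B * b i) →
          ∀ γ : Matrix (Fin 3) (Fin 3) ℤ, |γ.det| = 1 → ∃ i j, 1 / B ^ C <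
            |(Matrix.diagonal b * X (point α β (x k) (y k)) γ - 1) i j|) ∧
    ∀ ρ σ : ℝ, 1 < ρ → 1 < σ →
      (∃ (C : ℝ) (V : ℤ → ℤ → Matrix (Fin 3) (Fin 3) ℤ), Good α β ρ σ C V) ∧
      -- 3. local periods of the code
      ∀ (C : ℝ) (V : ℤ → ℤ → Matrix (Fin 3) (Fin 3) ℤ), Good α β ρ σ C V →
        ∃ κ : ℕ, ∀ L : ℕ, ∃ M : ℕ, ∀ (N : ℕ) (u v : ℕ → ℤ),
          (∀ k ≤ N, (M : ℤ) ≤ u k ∧ (M : ℤ) ≤ v k) →
          (∀ k < N, |u (k + 1) - u k| ≤ L ∧ |v (k + 1) - v k| ≤ L) →
          ((M : ℤ) < |u N - u 0| ∨ (M : ℤ) < |v N - v 0|) →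
          ∃ k ≤ N, ∀ s t : ℤ, |s| ≤ L → |t| ≤ L → (s ≠ 0 ∨ t ≠ 0) →
            ¬ LocalPeriod V (u k) (v k) s t (κ * L) := by
  obtain ⟨ε, hε, N₀, hq⟩ := h
  obtain ⟨ν, hν0, hν⟩ := H715R2.exists_nu hε hq
  constructor
  · obtain ⟨C, hC⟩ := Pool.Agent.V7H37.LI.islands hν0 hν
    refine ⟨C + 1, fun B hB => ?_⟩
    obtain ⟨M, hM1, hM⟩ := hC B hB
    have hB0 : 0 < B := by linarith
    have hB1 : 1 ≤ B := by linarith
    have hηη : 1 / B ^ (C + 1) ≤ 1 / B ^ C :=
      one_div_le_one_div_of_le (by positivity) (pow_le_pow_right₀ hB1 (Nat.le_succ _))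
    have hηB : 1 / B ^ (C + 1) * B = 1 / B ^ C := by
      rw [pow_succ]
      field_simp
    have hη2 : 1 / B ^ (C + 1) ≤ 1 / 2 := by
      have : 1 / B ^ (C + 1) ≤ 1 / B ^ 1 :=
        one_div_le_one_div_of_le (by positivity) (pow_le_pow_right₀ hB1 (by omega))
      refine this.trans ?_
      rw [pow_one]
      exact one_div_le_one_div_of_le (by norm_num) hB
    refine ⟨M, hM1, fun n x y hxy hstep hfar => ?_⟩
    obtain ⟨k, hk, hns⟩ : ∃ k ≤ n, ∀ γ : Matrix (Fin 3) (Fin 3) ℤ,
        (∀ c : ℤ, γ ≠ c • (1 : Matrix (Fin 3) (Fin 3) ℤ)) → ¬ Pool.Agent.V7H37.RT.ND B (1 / B ^ C)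
          (Pool.Agent.V7H37.RT.Xm (Pool.Agent.V7H37.LI.hp α β (x k) (y k)) γ) := by
      by_contra hcon
      push Not at hcon
      obtain ⟨h1, h2, h3, h4⟩ := hM n x y hxy hstep hcon
      rcases hfar with h | h | h | h
      · exact absurd h1 (not_le.2 h)
      · exact absurd h2 (not_le.2 h)
      · exact absurd h3 (not_le.2 h)
      · exact absurd h4 (not_le.2 h)
    refine ⟨k, hk, fun γ hγ hND => hns γ hγ fun i j => (hND i j).trans ?_, ?_⟩
    · split_ifs
      · exact le_rfl
      · exact hηη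
    · have hx0 : 0 < x k := by linarith [(hxy k hk).1]
      have hy0 : 0 < y k := by linarith [(hxy k hk).2]
      intro b hb hb2 hbB γ hγ
      exact Pool.Agent.V7H37.LI.no_return (d := 3) (by norm_num)
        (Pool.Agent.V7H37.LI.hp_ne hx0 hy0) hB hη2 (fun γ' h1 h2 => hns γ' h1 (by
          rwa [hηB] at h2)) b hb hb2 hbB γ hγ
  · intro ρ σ hρ hσ
    refine ⟨?_, fun C V hV => ?_⟩
    · obtain ⟨C, hC⟩ := Pool.Agent.N759.NV.exists_good_bases hν0 hν
      have hex : ∀ m n : ℤ, ∃ V : Matrix (Fin 3) (Fin 3) ℤ, 0 ≤ m → 0 ≤ n → |V.det| = 1 ∧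
          ∀ k, |(V 0 k : ℝ)| ≤ C * (ρ ^ m * σ ^ n) ∧ ρ ^ m * |α * V 0 k - V 1 k| ≤ C ∧
            σ ^ n * |β * V 0 k - V 2 k| ≤ C := by
        intro m n
        by_cases hmn : 0 ≤ m ∧ 0 ≤ n
        · obtain ⟨V, hV⟩ := hC (ρ ^ m) (σ ^ n) (one_le_zpow₀ hρ.le hmn.1) (one_le_zpow₀ hσ.le hmn.2)
          exact ⟨V, fun _ _ => hV⟩
        · exact ⟨1, fun h1 h2 => absurd ⟨h1, h2⟩ hmn⟩
      choose V hV using hex
      exact ⟨C, V, fun m n hm hn => hV m n hm hn⟩
    · obtain ⟨κ, hκ⟩ := Pool.Agent.V7H37.LI.paths hν0 hν hρ hσ (C := C) (V := V) hV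
      refine ⟨κ, fun L => ?_⟩
      obtain ⟨M, hM⟩ := hκ L
      refine ⟨M, fun N u v hpos hstep hfar => ?_⟩
      obtain ⟨k, hk, hno⟩ := hM N u v hpos hstep hfar
      refine ⟨k, hk, fun s t hs ht hst hper => ?_⟩
      obtain ⟨x, y, hx, hy, hne⟩ := hno s t hs ht hst
      exact hne (hper x y (by push_cast at hx; exact hx) (by push_cast at hy; exact hy))

end Pool.Agent.Results.MP_0ea415_nt.IslandsH37
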