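import Mathlib
import Pool.Agent.V7H17.LP.Liou

/-!
# MP_0ea415_nt: Littlewood's problem along the primes, on every fibre

We ask for primes `p` with `p ⟨pα⟩ ⟨pβ⟩` small, for a FIXED `α` and almost every `β`. Arbitrary
shifts are allowed in both coordinates (in the second coordinate they may even depend on `p` in an
arbitrary way), and the primes may be restricted to any residue class `a` modulo `l` coprime to `l`.

* Let `α` be ANY irrational number. For almost every `β`,
  `liminf p (log p) ⟨pα - δ⟩ ⟨pβ - γ_p⟩ = 0` along the primes of all the residue classes.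
* Let `α` be a `k`-tuple with the Diophantine condition `⟨h·α⟩ ≥ c |h|^(-A)` (for `k = 1`: `α` is not a
  Liouville number) and `ψ` non-increasing. If `∑ ψ(n) (log n)^(k-1) = ∞`, then for almost every `β`
  there are infinitely many such primes with `∏ ⟨pα_i - δ_i⟩ ⟨pβ - γ_p⟩ < ψ(p)`. The condition is
  best possible: if the sum is finite, then for almost all `(α, β)` there are only finitely many.
* For `k = 1` the Diophantine condition cannot be replaced by irrationality.

Proof. For sums over the primes `p` of a block `(4^m, 4^(m+1)]` and of a residue class we bound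
`1 / ⟨pα - δ⟩` from below by a sum `G` of Fejér kernels of degrees `1, 2, 4, …, 4^(η m)`. Their
products are trigonometric polynomials with nonnegative coefficients, and Vinogradov's bound for
`∑ log p e(p h·α)` together with the prime number theorem for arithmetic progressions shows that
`∑ log p ∏ G(pα_i - δ_i) ≥ c m^k 4^m`, if all `h·α + b / l` with small `h ≠ 0` have a rational
approximation with a denominator which is neither small nor large. This is true for all large `m`
for Diophantine `α`, and for a positive proportion of the `m ≤ M` for infinitely many `M` for every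
irrational `α`. So the sum of the functions `Ψ(p) = ψ(p) / ∏ ⟨pα_i - δ_i⟩` (suitably truncated)
diverges, and the inhomogeneous theorem of Duffin-Schaeffer type with a condition on gcd sums
(which is satisfied on the primes) gives infinitely many `p` with `⟨pβ - γ_p⟩ < Ψ(p)`.
-/

set_option autoImplicit false

namespace Pool.Agent.Results.MP_0ea415_nt.PrimeFibresH17

open MeasureTheory Filter

/-- the distance to the nearest integer -/
noncomputable def distInt (x : ℝ) : ℝ := |x - round x|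

/-- the Diophantine condition `⟨h·α⟩ ≥ c |h|^(-A)` for some `A` and `c > 0` and all nonzero integer
vectors `h`; here `‖h‖` is the maximum of the `|h i|` -/
def Diophantine {k : ℕ} (α : Fin k → ℝ) : Prop :=
  ∃ (A : ℕ) (c : ℝ), 0 < c ∧ ∀ h : Fin k → ℤ, h ≠ 0 → c ≤ ‖h‖ ^ A * distInt (∑ i, (h i : ℝ) * α i)

theorem result :
    (∀ α δ : ℝ, Irrational α → ∀ γ : ℕ → ℝ, ∀ᵐ β : ℝ, ∀ l a : ℕ, 1 ≤ l → a.Coprime l →
      ∀ ε : ℝ, 0 < ε → ∃ᶠ p : ℕ in atTop, p.Prime ∧ p ≡ a [MOD l] ∧
        (p : ℝ) * Real.log p * distInt ((p : ℝ) * α - δ) * distInt ((p : ℝ) * β - γ p) < ε) ∧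
    (∀ k : ℕ, 1 ≤ k → ∀ ψ : ℕ → ℝ, (∀ n, 0 ≤ ψ n) → Antitone ψ →
      (¬ Summable (fun n : ℕ => ψ n * Real.log n ^ (k - 1)) →
        ∀ α δ : Fin k → ℝ, Diophantine α → ∀ γ : ℕ → ℝ, ∀ᵐ β : ℝ, ∀ l a : ℕ, 1 ≤ l → a.Coprime l →
          ∃ᶠ p : ℕ in atTop, p.Prime ∧ p ≡ a [MOD l] ∧
            (∏ i, distInt ((p : ℝ) * α i - δ i)) * distInt ((p : ℝ) * β - γ p) < ψ p) ∧
      (Summable (fun n : ℕ => ψ n * Real.log n ^ (k - 1)) →
        ∀ (δ : ℕ → Fin k → ℝ) (γ : ℕ → ℝ), ∀ᵐ x : (Fin k → ℝ) × ℝ, ∀ᶠ p : ℕ in atTop, p.Prime →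
          ψ p ≤ (∏ i, distInt ((p : ℝ) * x.1 i - δ p i)) * distInt ((p : ℝ) * x.2 - γ p))) ∧
    (∃ α : ℝ, Irrational α ∧ ∃ ψ : ℕ → ℝ, (∀ n, 0 ≤ ψ n) ∧ Antitone ψ ∧ ¬ Summable ψ ∧
      ∀ γ : ℕ → ℝ, ∀ᵐ β : ℝ, ∀ᶠ p : ℕ in atTop, p.Prime →
        ψ p ≤ distInt ((p : ℝ) * α) * distInt ((p : ℝ) * β - γ p)) := by
  refine ⟨fun α δ hα γ => Pool.Agent.V7H17.LP.irr_fibre hα δ γ, fun k hk ψ h0 hanti => ⟨?_, ?_⟩,
    Pool.Agent.V7H17.LP.liou⟩
  · intro hdiv α δ hα γ
    exact Pool.Agent.V7H17.LP.dio_fibre hk hα δ h0 hanti hdiv γ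
  · intro hs δ γ
    exact Pool.Agent.V7H17.LP.convK hk h0 hanti hs δ γ

end Pool.Agent.Results.MP_0ea415_nt.PrimeFibresH17
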