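import Mathlib
import Pool.Agent.V7H27.LC.Main

/-!
# MP_0ea415_nt: Littlewood's problem with a power of the logarithm, and with arbitrary shifts, at
almost every point of a self-similar set

Let `b ≥ 2` be an integer and let `X = ∑ j ≥ 1, b^(-j) ξ_j`, where the `ξ_j` are independent
bounded random variables, two fixed values `u`, `v` of which have probability at least `p > 0` for
every `j`.  (For `b = 3` and `ξ_j` uniform on `{0, 2}` this is a random point of Cantor's ternary
set; if the `ξ_j` are real, finitely valued and identically distributed, the law of `X` is the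
self-similar measure of the similarities `x ↦ (x + a_k) / b` with arbitrary probabilities.)

There is `c > 0`, depending only on `b` and `p`, such that for EVERY real `α`, almost surely
`β = X` satisfies: for every real `t` there are infinitely many `q` with

  `q (log q)^c ⟨qα⟩ ⟨qβ - t⟩ < 1`.

The same holds with `⟨qα - γ⟩` instead of `⟨qα⟩` for every real `γ` if `α` is badly approximable
(it is enough that `q (log q)^c ⟨qα⟩ ≥ 1` for all large `q`), and with `β = F(X)` for `C^2`
functions `F`, almost surely on the event that `F'(X) ≠ 0`.  More generally `ξ_j` and `X` may be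
vectors (in a separable Banach space `E`; for instance `X` is a random point of a Sierpinski gasket
or carpet and `F` a function of two variables); then the condition is that the derivative of `F` at
`X` does not vanish in the direction `u - v`.

Without the logarithm and the shifts, for real `ξ_j`, this follows from the theorem of Einsiedler,
Katok and Lindenstrauss, as these measures have positive dimension.  Their Fourier transforms need
not tend to zero (Cantor's measure), so that the results for measures with logarithmic Fourier decay
do not apply.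

Proof.  If `⟨qα⟩` is not smaller than `1 / (q (log q)^c)`, there are integers `x_0 < x_1 < … < x_R`
with `x_i ⟨x_i α - γ⟩` bounded (up to a power of the logarithm), at consecutive scales.  If for three
of them, and for a real `z`, all `z x_i / b^j` are close to integers for all `j` in a window
`(J - 3l, J - l]` of positions, the quotients of their differences are so close to rational numbers
with a denominator about `b^l` that `α` has a better approximation than it can have.  Hence for each
`z` all but two of the `x_i` have at least `T` positions `j` in `(J - 27^T l, J]` for which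
`z x_i / b^j` is not close to an integer; for `z = h F'(a) (u - v)`, `h < H`, `2 H ≤ R`, one `x_i`
has this property for all `h`, and then the first `H - 1` Fourier coefficients of the conditional
distribution of `x_i F(X)` modulo one, when the digits before the window are known, are at most
`ρ^T`.  So `x_i F(X)` is in a given short arc with a probability which is bounded below, in each of
many disjoint windows.
-/

namespace Pool.Agent.Results.MP_0ea415_nt.SelfSimilarMeasuresH27

open MeasureTheory ProbabilityTheory Filter

universe w₁ w₂

/-- `|x - round x|` is the distance of `x` to the nearest integer. -/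
theorem result (b : ℕ) (hb : 2 ≤ b) (p : ℝ) (hp : 0 < p) :
    ∃ c : ℝ, 0 < c ∧
      ∀ (E : Type w₁) [NormedAddCommGroup E] [NormedSpace ℝ E] [CompleteSpace E]
        [MeasurableSpace E] [BorelSpace E] [SecondCountableTopology E]
        (Ω : Type w₂) [MeasurableSpace Ω] (P : Measure Ω) [IsProbabilityMeasure P]
        (ξ : ℕ → Ω → E), (∀ j, Measurable (ξ j)) → iIndepFun ξ P →
        (∃ M : ℝ, ∀ j ω, ‖ξ j ω‖ ≤ M) →
      ∀ u v : E, (∀ j, ENNReal.ofReal p ≤ P {ω | ξ j ω = u}) →
        (∀ j, ENNReal.ofReal p ≤ P {ω | ξ j ω = v}) →
      ∀ α γ : ℝ, (γ = 0 ∨ ∀ᶠ q : ℕ in atTop,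
          1 ≤ (q : ℝ) * Real.log q ^ c * |q * α - round (q * α)|) →
      ∀ F : E → ℝ, ContDiff ℝ 2 F →
      ∀ᵐ ω ∂P, fderiv ℝ F (∑' j, ((b : ℝ) ^ (j + 1))⁻¹ • ξ j ω) (u - v) ≠ 0 →
        ∀ t : ℝ, ∃ᶠ q : ℕ in atTop,
          (q : ℝ) * Real.log q ^ c * |q * α - γ - round (q * α - γ)| *
            |q * F (∑' j, ((b : ℝ) ^ (j + 1))⁻¹ • ξ j ω) - t
              - round (q * F (∑' j, ((b : ℝ) ^ (j + 1))⁻¹ • ξ j ω) - t)| < 1 := by
  set p' : ℝ := min p 1 with hp'
  have hp'0 : 0 < p' := lt_min hp one_pos
  have hp'1 : p' ≤ 1 := min_le_right _ _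
  obtain ⟨c, G, hc, h200, hρ, hlog, hsum, hGt⟩ :=
    Pool.Agent.V7H27.LC.exists_params hb hp'0 hp'1
  refine ⟨c, hc, ?_⟩
  intro E _ _ _ _ _ _ Ω _ P _ ξ hm hi hM u v hu hv α γ hαγ F hF
  obtain ⟨M, hM⟩ := hM
  have hreal : ∀ w : E, (∀ j, ENNReal.ofReal p ≤ P {ω | ξ j ω = w}) →
      ∀ j, p' ≤ P.real {ω | ξ j ω = w} := by
    intro w hw j
    have h1 : ENNReal.ofReal p' ≤ P {ω | ξ j ω = w} :=
      (ENNReal.ofReal_le_ofReal (min_le_left _ _)).trans (hw j)
    exact (ENNReal.ofReal_le_iff_le_toReal (measure_ne_top _ _)).1 h1
  by_cases hα : ∀ᶠ q : ℕ in atTop, 1 ≤ (q : ℝ) * Real.log q ^ c * |q * α - round (q * α)|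
  · exact Pool.Agent.V7H27.LC.main_aux hb hp'0 hc h200 hρ hlog hsum hGt hm hi hM
      (hreal u hu) (hreal v hv) hα hF
  · have hγ : γ = 0 := by
      rcases hαγ with h | h
      · exact h
      · exact absurd h hα
    subst hγ
    rw [not_eventually] at hα
    refine Eventually.of_forall (fun ω _ t => ?_)
    refine hα.mono (fun q hq => ?_)
    rw [not_le] at hq
    simp only [sub_zero]
    have hl : 0 ≤ Real.log q := Real.log_natCast_nonneg q
    have h0 : 0 ≤ (q : ℝ) * Real.log q ^ c * |q * α - round (q * α)| := by positivity
    set y : ℝ := q * F (∑' j, ((b : ℝ) ^ (j + 1))⁻¹ • ξ j ω) - t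
    have h1 : |y - round y| ≤ 1 / 2 := abs_sub_round y
    calc (q : ℝ) * Real.log q ^ c * |q * α - round (q * α)| * |y - round y|
        ≤ (q : ℝ) * Real.log q ^ c * |q * α - round (q * α)| * 1 := by
          gcongr
          linarith
      _ < 1 := by rw [mul_one]; exact hq

end Pool.Agent.Results.MP_0ea415_nt.SelfSimilarMeasuresH27
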